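import Pool.Agent.Q61.JS.Stm

/-!
# Lemma job JS-7 (project JS of helper61): lower bound near a point of the jump set
-/

set_option autoImplicit false

namespace Pool.Agent.Q223.JS

open MeasureTheory Filter Topology Set Metric Pool.Agent.Q61.JS
open scoped ENNReal NNReal

theorem st_meas {N d : ℕ} (a b : E d) (ν x : E N) : Measurable (st a b ν x) := by
  unfold st
  refine Measurable.ite ?_ measurable_const measurable_const
  have h1 : Continuous fun y : E N => inner ℝ (y - x) ν :=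
    (continuous_id.sub continuous_const).inner continuous_const
  exact measurableSet_lt measurable_const h1.measurable

theorem blow_core {n d : ℕ} (u : E (n + 1) → E d) (a b : E d) (ν k h : E (n + 1))
    (q ρ δ τ R V : ℝ) (hq : 1 ≤ q) (hu : AEStronglyMeasurable u volume) (hab : a ≠ b)
    (hδ : 0 ≤ δ) (hτ : 0 < τ) (hτ1 : τ < 1) (hR : 0 < R * ‖h‖) (hρ : R * ‖h‖ ≤ ρ)
    (hN : Near u a b ν k ρ δ) (S : Set (E (n + 1))) (hS : volume S = ENNReal.ofReal V)
    (hSB : ∀ y ∈ S, y ∈ ball k (R * ‖h‖) ∧ y + h ∈ ball k (R * ‖h‖) ∧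
      ‖st a b ν k (y + h) - st a b ν k y‖ = ‖a - b‖) :
    ENNReal.ofReal (((1 - τ) * ‖a - b‖) ^ q * (V - 4 * δ / τ * (R * ‖h‖) ^ (n + 1))) ≤
      ∫⁻ y in ball k (R * ‖h‖), ‖u (y + h) - u y‖ₑ ^ q := by
  set B := ball k (R * ‖h‖) with hB
  have hBm : MeasurableSet B := measurableSet_ball
  have hab0 : 0 < ‖a - b‖ := norm_pos_iff.2 (sub_ne_zero.2 hab)
  set w : ℝ := 2 * δ / τ * (R * ‖h‖) ^ (n + 1) with hw
  have hw0 : 0 ≤ w := by positivity
  set ε : ℝ := τ * ‖a - b‖ / 2 with hε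
  have hε0 : 0 < ε := by positivity
  -- the bad set
  set Bad : Set (E (n + 1)) := {y | ENNReal.ofReal ε ≤ ‖u y - st a b ν k y‖ₑ} ∩ B with hBad
  have hem : AEMeasurable (fun y => ‖u y - st a b ν k y‖ₑ) (volume.restrict B) := by
    have h1 : AEStronglyMeasurable (fun y => u y - st a b ν k y) volume :=
      hu.sub (st_meas a b ν k).stronglyMeasurable.aestronglyMeasurable
    exact h1.enorm.restrict
  have hBadv : volume Bad ≤ ENNReal.ofReal w := by
    have h1 := mul_meas_ge_le_lintegral₀ hem (ENNReal.ofReal ε)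
    rw [Measure.restrict_apply' hBm] at h1
    have h2 := h1.trans (hN (R * ‖h‖) hR hρ)
    have h3 : ENNReal.ofReal (δ * ‖a - b‖ * (R * ‖h‖) ^ (n + 1)) =
        ENNReal.ofReal ε * ENNReal.ofReal w := by
      rw [← ENNReal.ofReal_mul hε0.le]
      congr 1
      rw [hε, hw]
      field_simp
    rw [h3] at h2
    exact (ENNReal.mul_le_mul_iff_right (by simpa using hε0) ENNReal.ofReal_ne_top).1 h2
  have hBad2 : volume ((fun y => y + h) ⁻¹' Bad) ≤ ENNReal.ofReal w := by
    rw [measure_preimage_add_right]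
    exact hBadv
  set L : ℝ := (1 - τ) * ‖a - b‖ with hL
  have hL0 : 0 ≤ L := by
    have : 0 ≤ 1 - τ := by linarith
    positivity
  -- the good set
  have hgood : S \ (Bad ∪ (fun y => y + h) ⁻¹' Bad) ⊆
      {y | ENNReal.ofReal (L ^ q) ≤ ‖u (y + h) - u y‖ₑ ^ q} ∩ B := by
    rintro y ⟨hy, hyb⟩
    obtain ⟨h1, h2, h3⟩ := hSB y hy
    refine ⟨?_, h1⟩
    have h4 : ‖u y - st a b ν k y‖ < ε := by
      by_contra hcon
      push Not at hcon
      apply hyb
      left
      refine ⟨?_, h1⟩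
      change ENNReal.ofReal ε ≤ ‖u y - st a b ν k y‖ₑ
      rw [← ofReal_norm]
      exact ENNReal.ofReal_le_ofReal hcon
    have h5 : ‖u (y + h) - st a b ν k (y + h)‖ < ε := by
      by_contra hcon
      push Not at hcon
      apply hyb
      right
      refine ⟨?_, h2⟩
      change ENNReal.ofReal ε ≤ ‖u (y + h) - st a b ν k (y + h)‖ₑ
      rw [← ofReal_norm]
      exact ENNReal.ofReal_le_ofReal hcon
    have h6 : L ≤ ‖u (y + h) - u y‖ := by
      have h7 : st a b ν k (y + h) - st a b ν k y = (u (y + h) - u y) -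
          (u (y + h) - st a b ν k (y + h)) + (u y - st a b ν k y) := by abel
      have h8 := norm_add_le ((u (y + h) - u y) -
          (u (y + h) - st a b ν k (y + h))) (u y - st a b ν k y)
      have h9 := norm_sub_le (u (y + h) - u y) (u (y + h) - st a b ν k (y + h))
      rw [← h7, h3] at h8
      have h10 : ε + ε = τ * ‖a - b‖ := by rw [hε]; ring
      rw [hL]
      linarith
    change ENNReal.ofReal (L ^ q) ≤ ‖u (y + h) - u y‖ₑ ^ q
    rw [← ENNReal.ofReal_rpow_of_nonneg hL0 (by linarith), ← ofReal_norm]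
    exact ENNReal.rpow_le_rpow (ENNReal.ofReal_le_ofReal h6) (by linarith)
  have hfm : AEMeasurable (fun y => ‖u (y + h) - u y‖ₑ ^ q) (volume.restrict B) := by
    have h1 : AEStronglyMeasurable (fun y => u (y + h)) volume :=
      hu.comp_quasiMeasurePreserving (measurePreserving_add_right volume h).quasiMeasurePreserving
    have h2 : AEMeasurable (fun y => ‖u (y + h) - u y‖ₑ ^ q) volume :=
      (h1.sub hu).enorm.pow_const q
    exact h2.restrict
  have hmk := mul_meas_ge_le_lintegral₀ hfm (ENNReal.ofReal (L ^ q))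
  rw [Measure.restrict_apply' hBm] at hmk
  refine le_trans ?_ hmk
  rw [ENNReal.ofReal_mul (Real.rpow_nonneg hL0 q)]
  refine mul_le_mul_right ?_ _
  refine le_trans ?_ (measure_mono hgood)
  have h11 : V - 4 * δ / τ * (R * ‖h‖) ^ (n + 1) = V - (w + w) := by rw [hw]; ring
  rw [h11, ENNReal.ofReal_sub _ (by positivity), tsub_le_iff_right, ← hS,
    ENNReal.ofReal_add hw0 hw0]
  calc volume S ≤ volume ((S \ (Bad ∪ (fun y => y + h) ⁻¹' Bad)) ∪
        (Bad ∪ (fun y => y + h) ⁻¹' Bad)) := by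
        refine measure_mono fun y hy => ?_
        by_cases hyb : y ∈ Bad ∪ (fun y => y + h) ⁻¹' Bad
        · exact Or.inr hyb
        · exact Or.inl ⟨hy, hyb⟩
    _ ≤ volume (S \ (Bad ∪ (fun y => y + h) ⁻¹' Bad)) +
          volume (Bad ∪ (fun y => y + h) ⁻¹' Bad) := measure_union_le _ _
    _ ≤ volume (S \ (Bad ∪ (fun y => y + h) ⁻¹' Bad)) +
          (ENNReal.ofReal w + ENNReal.ofReal w) := by
        gcongr
        exact (measure_union_le _ _).trans (add_le_add hBadv hBad2)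

theorem t_BLOW (hP : S_PROJ) : S_BLOW := by
  intro n d u a b ν k h q ρ δ τ R hq hu hab hν hδ hτ hτ1 hR hh hρ hN
  have ht : 0 < ‖h‖ := norm_pos_iff.2 hh
  have hRt : 0 < R * ‖h‖ := by positivity
  obtain ⟨P, hP1, hP2⟩ := hP n ν hν
  have hPν : P ν = 0 := by
    have h1 := hP1 ν
    have h2 : inner ℝ ν ν = (1 : ℝ) := by rw [real_inner_self_eq_norm_sq, hν, one_pow]
    rw [h2, hν] at h1
    have h3 : ‖P ν‖ ^ 2 = 0 := by linarith
    exact norm_eq_zero.1 (pow_eq_zero_iff two_ne_zero |>.1 h3)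
  have hνν : inner ℝ ν ν = (1 : ℝ) := by rw [real_inner_self_eq_norm_sq, hν, one_pow]
  set c : ℝ := |inner ℝ h ν| with hc
  have hct : c ≤ ‖h‖ := by
    have := abs_real_inner_le_norm h ν
    rwa [hν, mul_one] at this
  have hc0 : 0 ≤ c := abs_nonneg _
  have hab0 : 0 < ‖a - b‖ := norm_pos_iff.2 (sub_ne_zero.2 hab)
  have hdist : ∀ y : E (n + 1), |inner ℝ (y - k) ν| ≤ c → ‖P (y - k)‖ < (R - 2) * ‖h‖ →
      y ∈ ball k (R * ‖h‖) ∧ y + h ∈ ball k (R * ‖h‖) := by
    intro y h1 h2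
    have h3 := hP1 (y - k)
    have h4 : ‖y - k‖ < (R - 1) * ‖h‖ := by
      have h5 : (inner ℝ (y - k) ν) ^ 2 ≤ ‖h‖ ^ 2 := by
        rw [← sq_abs]
        exact pow_le_pow_left₀ (abs_nonneg _) (h1.trans hct) 2
      have h6 : ‖P (y - k)‖ ^ 2 < ((R - 2) * ‖h‖) ^ 2 :=
        pow_lt_pow_left₀ h2 (norm_nonneg _) two_ne_zero
      have h7 : ((R - 2) * ‖h‖) ^ 2 + ‖h‖ ^ 2 ≤ ((R - 1) * ‖h‖) ^ 2 := by
        have : 0 ≤ 2 * (R - 2) * ‖h‖ ^ 2 := by
          have : 0 ≤ R - 2 := by linarith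
          positivity
        nlinarith
      have h8 : ‖y - k‖ ^ 2 < ((R - 1) * ‖h‖) ^ 2 := by linarith
      have h9 : 0 ≤ (R - 1) * ‖h‖ := by
        have : 0 ≤ R - 1 := by linarith
        positivity
      exact lt_of_pow_lt_pow_left₀ 2 h9 h8
    refine ⟨?_, ?_⟩
    · rw [mem_ball, dist_eq_norm]
      nlinarith
    · rw [mem_ball, dist_eq_norm]
      have h10 : y + h - k = (y - k) + h := by abel
      rw [h10]
      have := norm_add_le (y - k) h
      nlinarith
  rcases lt_trichotomy (inner ℝ h ν) 0 with hs | hs | hs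
  · -- negative
    have hcv : c = -inner ℝ h ν := abs_of_neg hs
    refine blow_core u a b ν k h q ρ δ τ R (c * (om n * ((R - 2) * ‖h‖) ^ n)) hq hu hab hδ hτ hτ1
      hRt hρ hN _ (hP2 (k + c • ν) c ((R - 2) * ‖h‖) hc0 (mul_pos (by linarith) ht)) ?_
    rintro y ⟨h1, h2, h3⟩
    have e1 : inner ℝ (y - (k + c • ν)) ν = inner ℝ (y - k) ν - c := by
      have : y - (k + c • ν) = (y - k) - c • ν := by abel
      rw [this, inner_sub_left, inner_smul_left, hνν]
      simp
    have e2 : P (y - (k + c • ν)) = P (y - k) := by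
      have : y - (k + c • ν) = (y - k) - c • ν := by abel
      rw [this, map_sub, map_smul, hPν, smul_zero, sub_zero]
    rw [e1] at h1 h2
    rw [e2] at h3
    have h4 : 0 < inner ℝ (y - k) ν := by linarith
    have h5 : inner ℝ (y - k) ν ≤ c := by linarith
    obtain ⟨h6, h7⟩ := hdist y (by rw [abs_of_pos h4]; exact h5) h3
    refine ⟨h6, h7, ?_⟩
    have h8 : st a b ν k y = a := if_pos h4
    have h9 : st a b ν k (y + h) = b := by
      refine if_neg ?_
      have h10 : y + h - k = (y - k) + h := by abel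
      rw [h10, inner_add_left]
      linarith
    rw [h8, h9, norm_sub_rev]
  · -- zero
    have hc' : c = 0 := by rw [hc, hs, abs_zero]
    rw [hc', zero_mul, zero_sub]
    have h1 : ((1 - τ) * ‖a - b‖) ^ q * -(4 * δ / τ * (R * ‖h‖) ^ (n + 1)) ≤ 0 := by
      have h2 : 0 ≤ ((1 - τ) * ‖a - b‖) ^ q := by
        apply Real.rpow_nonneg
        have : 0 ≤ 1 - τ := by linarith
        positivity
      have h3 : 0 ≤ 4 * δ / τ * (R * ‖h‖) ^ (n + 1) := by positivity
      nlinarith
    rw [ENNReal.ofReal_of_nonpos h1]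
    exact bot_le
  · -- positive
    have hcv : c = inner ℝ h ν := abs_of_pos hs
    refine blow_core u a b ν k h q ρ δ τ R (c * (om n * ((R - 2) * ‖h‖) ^ n)) hq hu hab hδ hτ hτ1
      hRt hρ hN _ (hP2 k c ((R - 2) * ‖h‖) hc0 (mul_pos (by linarith) ht)) ?_
    rintro y ⟨h1, h2, h3⟩
    obtain ⟨h6, h7⟩ := hdist y (by rw [abs_of_nonpos h2]; linarith) h3
    refine ⟨h6, h7, ?_⟩
    have h8 : st a b ν k y = b := if_neg (not_lt.2 h2)
    have h9 : st a b ν k (y + h) = a := by
      refine if_pos ?_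
      have h10 : y + h - k = (y - k) + h := by abel
      rw [h10, inner_add_left]
      linarith
    rw [h8, h9]

end Pool.Agent.Q223.JS
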