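import Pool.Agent.Q61.JS.Stm

/-!
# Lemma job JS-9 (project JS of helper61): lower bound from finitely many compact pieces
-/

set_option autoImplicit false

namespace Pool.Agent.Q223.JS

open MeasureTheory Filter Topology Set Metric Pool.Agent.Q61.JS
open scoped ENNReal NNReal

theorem ofReal_sum_le {ι : Type} (s : Finset ι) (f : ι → ℝ) :
    ENNReal.ofReal (∑ i ∈ s, f i) ≤ ∑ i ∈ s, ENNReal.ofReal (f i) := by
  classical
  induction s using Finset.induction_on with
  | empty => simp
  | insert a s ha ih =>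
    rw [Finset.sum_insert ha, Finset.sum_insert ha]
    exact ENNReal.ofReal_add_le.trans (add_le_add le_rfl ih)

/-- finitely many disjoint compact sets have positive mutual distances -/
theorem exists_dist {N I : ℕ} (K : Fin I → Set (E N)) (hK : ∀ i, IsCompact (K i))
    (hd : Pairwise fun i j => Disjoint (K i) (K j)) :
    ∃ d0 : ℝ, 0 < d0 ∧ ∀ i j, i ≠ j → ∀ x ∈ K i, ∀ y ∈ K j, d0 ≤ dist x y := by
  have h1 : ∀ p : Fin I × Fin I, ∃ t : ℝ, 0 < t ∧ (p.1 ≠ p.2 → ∀ x ∈ K p.1, ∀ y ∈ K p.2,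
      t ≤ dist x y) := by
    rintro ⟨i, j⟩
    by_cases hij : i = j
    · exact ⟨1, one_pos, fun h => absurd hij h⟩
    · obtain ⟨t, ht, hdis⟩ := (hd hij).exists_thickenings (hK i) (hK j).isClosed
      refine ⟨t, ht, fun _ x hx y hy => ?_⟩
      by_contra hcon
      push Not at hcon
      have hxi : x ∈ thickening t (K i) := self_subset_thickening ht _ hx
      have hxj : x ∈ thickening t (K j) := mem_thickening_iff.2 ⟨y, hy, hcon⟩
      exact Set.disjoint_left.1 hdis hxi hxj
  choose t ht htd using h1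
  have h2 : ∀ᶠ s : ℝ in 𝓝[>] 0, ∀ p : Fin I × Fin I, s ≤ t p := by
    rw [eventually_all]
    intro p
    have : ∀ᶠ s : ℝ in 𝓝 0, s < t p := gt_mem_nhds (ht p)
    filter_upwards [this.filter_mono nhdsWithin_le_nhds] with s hs using hs.le
  obtain ⟨s, hs, hs0⟩ := (h2.and self_mem_nhdsWithin).exists
  exact ⟨s, hs0, fun i j hij x hx y hy => (hs (i, j)).trans (htd (i, j) hij x hx y hy)⟩

theorem t_LOC (hC : S_CONE) (hH : S_HUP) (hB : S_BLOW) (hM : S_MULT) : S_LOC := by
  intro n d u I K a b ν q ρ δ τ R σ l hq hu hab hν hρ hδ hτ hτ1 hR hσ hl hlσ hδσ hK hKd hN hfin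
  obtain ⟨d0, hd0, hdd⟩ := exists_dist K hK hKd
  have hR0 : 0 < R := by linarith
  refine ⟨min (ρ / (4 * R)) (d0 / (2 * R)), lt_min (by positivity) (by positivity), ?_⟩
  intro h hh0 hht
  have hh1 : ‖h‖ < ρ / (4 * R) := hht.trans_le (min_le_left _ _)
  have hh2 : ‖h‖ < d0 / (2 * R) := hht.trans_le (min_le_right _ _)
  set r : ℝ := R * ‖h‖ with hr
  have hr0 : 0 < r := by positivity
  have hr1 : 4 * r < ρ := by
    rw [lt_div_iff₀ (by positivity)] at hh1
    rw [hr]; linarith
  have hr2 : 2 * r < d0 := by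
    rw [lt_div_iff₀ (by positivity)] at hh2
    rw [hr]; linarith
  set A : ℝ≥0∞ := ENNReal.ofReal (l ^ n * om n * r ^ n) with hA
  set μ : Measure (E (n + 1)) := ∑ i, (surf n).restrict (K i) with hμ
  have hKm : ∀ i, MeasurableSet (K i) := fun i => (hK i).isClosed.measurableSet
  have hμfin : IsFiniteMeasure μ := by
    refine ⟨?_⟩
    rw [hμ, Measure.coe_finsetSum, Finset.sum_apply]
    refine ENNReal.sum_lt_top.2 fun i _ => ?_
    rw [Measure.restrict_apply_univ]
    exact (hfin i).lt_top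
  have hball : ∀ z, μ (ball z r) ≤ A := by
    intro z
    have e1 : μ (ball z r) = ∑ i, surf n (K i ∩ ball z r) := by
      rw [hμ, Measure.coe_finsetSum, Finset.sum_apply]
      refine Finset.sum_congr rfl fun i _ => ?_
      rw [Measure.restrict_apply measurableSet_ball, inter_comm]
    rw [e1]
    by_cases hex : ∃ i, (K i ∩ ball z r).Nonempty
    · obtain ⟨i, x, hx, hxz⟩ := hex
      rw [Finset.sum_eq_single i]
      · refine hH n (K i ∩ ball z r) (ν i) z σ l r (hν i) hσ hl hlσ hr0 ?_ inter_subset_right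
        rintro x ⟨hx, hxz⟩ x' ⟨hx', hxz'⟩
        refine hC n d u (a i) (b i) (ν i) x x' ρ δ σ hu (hab i) (hν i) hδ hσ hδσ (hN i x hx)
          (hN i x' hx') ?_
        have h1 : dist x' x < r + r := by
          refine (dist_triangle_right x' x z).trans_lt (add_lt_add hxz' hxz)
        rw [dist_eq_norm] at h1
        linarith
      · intro j _ hj
        have : K j ∩ ball z r = ∅ := by
          rw [eq_empty_iff_forall_notMem]
          rintro y ⟨hy, hyz⟩
          have h1 := hdd i j hj.symm x hx y hy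
          have h2 : dist x y < r + r :=
            (dist_triangle_right x y z).trans_lt (add_lt_add hxz hyz)
          linarith
        rw [this, measure_empty]
      · intro hi
        exact absurd (Finset.mem_univ i) hi
    · push Not at hex
      have : ∑ i, surf n (K i ∩ ball z r) = 0 := by
        refine Finset.sum_eq_zero fun i _ => ?_
        rw [hex i, measure_empty]
      rw [this]
      exact bot_le
  have hfm : AEMeasurable (fun y => ‖u (y + h) - u y‖ₑ ^ q) volume := by
    have h1 : AEStronglyMeasurable (fun y => u (y + h)) volume :=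
      hu.comp_quasiMeasurePreserving (measurePreserving_add_right volume h).quasiMeasurePreserving
    exact (h1.sub hu).enorm.pow_const q
  have hmult := hM (n + 1) μ r A (fun y => ‖u (y + h) - u y‖ₑ ^ q) hμfin hfm hball
  refine le_trans ?_ hmult
  rw [hμ, lintegral_finsetSum_measure]
  refine (ofReal_sum_le _ _).trans (Finset.sum_le_sum fun i _ => ?_)
  rw [ENNReal.ofReal_mul ENNReal.toReal_nonneg, ENNReal.ofReal_toReal (hfin i)]
  have hblow : ∀ k ∈ K i, ENNReal.ofReal (((1 - τ) * ‖a i - b i‖) ^ q *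
      (|inner ℝ h (ν i)| * (om n * ((R - 2) * ‖h‖) ^ n) - 4 * δ / τ * r ^ (n + 1))) ≤
      ∫⁻ y in ball k r, ‖u (y + h) - u y‖ₑ ^ q := by
    intro k hk
    exact hB n d u (a i) (b i) (ν i) k h q ρ δ τ R hq hu (hab i) (hν i) hδ hτ hτ1 hR
      (norm_pos_iff.1 hh0) (by linarith) (hN i k hk)
  calc surf n (K i) * ENNReal.ofReal (((1 - τ) * ‖a i - b i‖) ^ q *
      (|inner ℝ h (ν i)| * (om n * ((R - 2) * ‖h‖) ^ n) - 4 * δ / τ * r ^ (n + 1)))
      = ∫⁻ _ in K i, ENNReal.ofReal (((1 - τ) * ‖a i - b i‖) ^ q *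
      (|inner ℝ h (ν i)| * (om n * ((R - 2) * ‖h‖) ^ n) - 4 * δ / τ * r ^ (n + 1))) ∂surf n := by
        rw [setLIntegral_const, mul_comm]
    _ ≤ ∫⁻ k in K i, (∫⁻ y in ball k r, ‖u (y + h) - u y‖ₑ ^ q) ∂surf n :=
        setLIntegral_mono' (hKm i) hblow

end Pool.Agent.Q223.JS
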