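import Pool.Agent.Q61.JS.Stm

/-!
# Lemma job JS-6 (project JS of helper61): projection along a unit vector
-/

set_option autoImplicit false

namespace Pool.Agent.Q223.JS

open MeasureTheory Filter Topology Set Metric Pool.Agent.Q61.JS
open scoped ENNReal NNReal

/-- the tail of a vector -/
noncomputable def tl (n : ℕ) : E (n + 1) →ₗ[ℝ] E n where
  toFun z := WithLp.toLp 2 (fun j : Fin n => z j.succ)
  map_add' x y := by ext j; simp
  map_smul' c x := by ext j; simp

theorem tl_apply (n : ℕ) (z : E (n + 1)) (j : Fin n) : tl n z j = z j.succ := rfl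

theorem tl_norm (n : ℕ) (z : E (n + 1)) : ‖tl n z‖ ^ 2 + (z 0) ^ 2 = ‖z‖ ^ 2 := by
  rw [EuclideanSpace.norm_sq_eq, EuclideanSpace.norm_sq_eq, Fin.sum_univ_succ]
  simp only [tl_apply, Real.norm_eq_abs, sq_abs]
  ring

/-- splitting off the first coordinate preserves the volume -/
theorem split_mp (n : ℕ) :
    MeasurePreserving (fun z : E (n + 1) => (z 0, tl n z)) volume
      ((volume : Measure ℝ).prod (volume : Measure (E n))) := by
  have h1 : MeasurePreserving (fun z : E (n + 1) => (WithLp.ofLp z : Fin (n + 1) → ℝ)) volume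
      volume := PiLp.volume_preserving_ofLp (Fin (n + 1))
  have h2 : MeasurePreserving (MeasurableEquiv.piFinSuccAbove (fun _ : Fin (n + 1) => ℝ) 0)
      volume volume := volume_preserving_piFinSuccAbove (fun _ : Fin (n + 1) => ℝ) 0
  have h3 : MeasurePreserving (fun w : Fin n → ℝ => (WithLp.toLp 2 w : E n)) volume volume :=
    PiLp.volume_preserving_toLp (Fin n)
  have h4 : MeasurePreserving (Prod.map (id : ℝ → ℝ) (fun w : Fin n → ℝ => (WithLp.toLp 2 w : E n)))
      ((volume : Measure ℝ).prod (volume : Measure (Fin n → ℝ)))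
      ((volume : Measure ℝ).prod (volume : Measure (E n))) :=
    (MeasurePreserving.id volume).prod h3
  exact h4.comp (h2.comp h1)

theorem ball_vol (n : ℕ) {r : ℝ} (hr : 0 < r) :
    volume (ball (0 : E n) r) = ENNReal.ofReal (om n * r ^ n) := by
  rw [Measure.addHaar_ball_of_pos volume (0 : E n) hr, finrank_euclideanSpace_fin]
  unfold om
  rw [mul_comm, ENNReal.ofReal_mul ENNReal.toReal_nonneg, ENNReal.ofReal_toReal
    measure_ball_lt_top.ne]

theorem t_PROJ : S_PROJ := by
  intro n ν hν
  let A : E (n + 1) ≃ₗᵢ[ℝ] E (n + 1) :=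
    (ℝ ∙ (ν - (EuclideanSpace.single 0 1 : E (n + 1))))ᗮ.reflection
  have hA : A ν = (EuclideanSpace.single 0 1 : E (n + 1)) :=
    Submodule.reflection_sub (by rw [hν]; simp)
  have hA0 : ∀ v, inner ℝ v ν = (A v) 0 := by
    intro v
    rw [← A.inner_map_map v ν, hA, EuclideanSpace.inner_single_right]
    simp
  refine ⟨(tl n).comp A.toLinearEquiv.toLinearMap, ?_, ?_⟩
  · intro v
    have h1 := tl_norm n (A v)
    rw [A.norm_map] at h1
    rw [hA0]
    exact h1
  · intro k c r hc hr
    have hmp : MeasurePreserving (fun y : E (n + 1) => ((A (y - k)) 0, tl n (A (y - k)))) volume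
        ((volume : Measure ℝ).prod (volume : Measure (E n))) :=
      (split_mp n).comp (A.measurePreserving.comp (measurePreserving_sub_right volume k))
    have hset : {y : E (n + 1) | -c < inner ℝ (y - k) ν ∧ inner ℝ (y - k) ν ≤ 0 ∧
        ‖((tl n).comp A.toLinearEquiv.toLinearMap) (y - k)‖ < r} =
        (fun y : E (n + 1) => ((A (y - k)) 0, tl n (A (y - k)))) ⁻¹'
          (Ioc (-c) 0 ×ˢ ball (0 : E n) r) := by
      ext y
      simp only [mem_preimage, mem_prod, mem_Ioc, mem_ball_zero_iff]
      change (-c < inner ℝ (y - k) ν ∧ inner ℝ (y - k) ν ≤ 0 ∧ ‖tl n (A (y - k))‖ < r) ↔ _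
      rw [hA0, and_assoc]
    rw [hset, hmp.measure_preimage (measurableSet_Ioc.prod measurableSet_ball).nullMeasurableSet,
      Measure.prod_prod, Real.volume_Ioc, ball_vol n hr, zero_sub, neg_neg,
      ← ENNReal.ofReal_mul hc]

end Pool.Agent.Q223.JS
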