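import Pool.Agent.Q61.JS.Stm

/-!
# Lemma job JS-16 (project JS of helper61): integrals over shells
-/

set_option autoImplicit false

namespace Pool.Agent.Q223.JS

open MeasureTheory Filter Topology Set Metric Pool.Agent.Q61.JS
open scoped ENNReal NNReal

/-- polar coordinates for a product -/
theorem lintegral_polar {n : ℕ} (F : E (n + 1) → ℝ≥0∞)
    (G : sphere (0 : E (n + 1)) 1 → ℝ≥0∞) (g : ℝ → ℝ≥0∞) (hG : Measurable G) (hg : Measurable g)
    (h : ∀ (θ : sphere (0 : E (n + 1)) 1) (r : ℝ), 0 < r → F (r • (θ : E (n + 1))) = G θ * g r) :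
    ∫⁻ x, F x = (∫⁻ θ, G θ ∂(volume : Measure (E (n + 1))).toSphere) *
      ∫⁻ r in Ioi (0 : ℝ), ENNReal.ofReal (r ^ n) * g r := by
  have hdim : Module.finrank ℝ (E (n + 1)) - 1 = n := by simp
  have hmp := (volume : Measure (E (n + 1))).measurePreserving_homeomorphUnitSphereProd
  rw [hdim] at hmp
  calc ∫⁻ x, F x = ∫⁻ x in ({0}ᶜ : Set (E (n + 1))), F x := by
        rw [restrict_compl_singleton]
    _ = ∫⁻ x : ({0}ᶜ : Set (E (n + 1))), F x
          ∂((volume : Measure (E (n + 1))).comap (Subtype.val)) := by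
        rw [lintegral_subtype_comap (measurableSet_singleton _).compl]
    _ = ∫⁻ x : ({0}ᶜ : Set (E (n + 1))), (fun z : sphere (0 : E (n + 1)) 1 × Ioi (0 : ℝ) =>
          G z.1 * g z.2) (homeomorphUnitSphereProd (E (n + 1)) x)
          ∂((volume : Measure (E (n + 1))).comap (Subtype.val)) := by
        refine lintegral_congr fun x => ?_
        have h1 := h (homeomorphUnitSphereProd (E (n + 1)) x).1
          (homeomorphUnitSphereProd (E (n + 1)) x).2 (homeomorphUnitSphereProd (E (n + 1)) x).2.2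
        have h2 : (((homeomorphUnitSphereProd (E (n + 1)) x).2 : Ioi (0 : ℝ)) : ℝ) •
            (((homeomorphUnitSphereProd (E (n + 1)) x).1 : sphere (0 : E (n + 1)) 1) :
              E (n + 1)) = x := by
          have h3 := (homeomorphUnitSphereProd (E (n + 1))).symm_apply_apply x
          have h4 := congrArg Subtype.val h3
          rw [homeomorphUnitSphereProd_symm_apply_coe] at h4
          exact h4
        rw [h2] at h1
        exact h1
    _ = ∫⁻ z, G z.1 * g z.2
          ∂((volume : Measure (E (n + 1))).toSphere.prod (Measure.volumeIoiPow n)) :=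
        hmp.lintegral_comp_emb (Homeomorph.measurableEmbedding _)
          (fun z : sphere (0 : E (n + 1)) 1 × Ioi (0 : ℝ) => G z.1 * g z.2)
    _ = (∫⁻ θ, G θ ∂(volume : Measure (E (n + 1))).toSphere) *
          ∫⁻ r : Ioi (0 : ℝ), g r ∂(Measure.volumeIoiPow n) :=
        lintegral_prod_mul hG.aemeasurable (hg.comp measurable_subtype_coe).aemeasurable
    _ = _ := by
        congr 1
        have hd : Measurable fun r : Ioi (0 : ℝ) => ENNReal.ofReal ((r : ℝ) ^ n) :=
          ENNReal.measurable_ofReal.comp (measurable_subtype_coe.pow_const n)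
        have hg' : Measurable fun r : Ioi (0 : ℝ) => g r := hg.comp measurable_subtype_coe
        have h5 := lintegral_withDensity_eq_lintegral_mul
          ((volume : Measure ℝ).comap (Subtype.val : Ioi (0 : ℝ) → ℝ)) hd hg'
        have h6 := lintegral_subtype_comap (μ := (volume : Measure ℝ)) (s := Ioi (0 : ℝ))
          measurableSet_Ioi (fun r : ℝ => ENNReal.ofReal (r ^ n) * g r)
        rw [← h6]
        exact h5

/-- the radial factor -/
theorem radial (n : ℕ) {r₁ r₂ : ℝ} (h1 : 0 < r₁) (h2 : r₁ < r₂) :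
    ∫⁻ r in Ioi (0 : ℝ), ENNReal.ofReal (r ^ n) *
      (Ioo r₁ r₂).indicator (fun r => ENNReal.ofReal r / ENNReal.ofReal r ^ (n + 2)) r =
      ENNReal.ofReal (Real.log (r₂ / r₁)) := by
  have e1 : ∀ r, ENNReal.ofReal (r ^ n) *
      (Ioo r₁ r₂).indicator (fun r => ENNReal.ofReal r / ENNReal.ofReal r ^ (n + 2)) r =
      (Ioo r₁ r₂).indicator (fun r => ENNReal.ofReal (r⁻¹)) r := by
    intro r
    by_cases hr : r ∈ Ioo r₁ r₂
    · rw [indicator_of_mem hr, indicator_of_mem hr]
      have hr0 : 0 < r := h1.trans hr.1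
      rw [← ENNReal.ofReal_pow hr0.le, ← ENNReal.ofReal_div_of_pos (by positivity),
        ← ENNReal.ofReal_mul (by positivity)]
      congr 1
      field_simp
      ring
    · rw [indicator_of_notMem hr, indicator_of_notMem hr, mul_zero]
  simp only [e1]
  rw [lintegral_indicator measurableSet_Ioo, Measure.restrict_restrict measurableSet_Ioo]
  have e2 : Ioo r₁ r₂ ∩ Ioi 0 = Ioo r₁ r₂ := by
    ext r
    simp only [mem_inter_iff, mem_Ioo, mem_Ioi]
    constructor
    · exact fun h => h.1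
    · exact fun h => ⟨h, h1.trans h.1⟩
  rw [e2, Measure.restrict_congr_set Ioo_ae_eq_Ioc]
  have hint : IntervalIntegrable (fun r : ℝ => r⁻¹) volume r₁ r₂ := by
    refine intervalIntegral.intervalIntegrable_inv (fun x hx => ?_) continuousOn_id
    rw [uIcc_of_le h2.le] at hx
    exact (h1.trans_le hx.1).ne'
  rw [← ofReal_integral_eq_lintegral_ofReal hint.1, ← intervalIntegral.integral_of_le h2.le,
    integral_inv_of_pos h1 (h1.trans h2)]
  filter_upwards [ae_restrict_mem measurableSet_Ioc] with y hy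
  exact inv_nonneg.2 (h1.trans hy.1).le

/-- the shell integral in polar coordinates -/
theorem shell_polar (n : ℕ) (ν : E (n + 1)) {r₁ r₂ : ℝ} (h1 : 0 < r₁) (h2 : r₁ < r₂) :
    ∫⁻ h in {h : E (n + 1) | r₁ < ‖h‖ ∧ ‖h‖ < r₂}, ENNReal.ofReal |inner ℝ h ν| / ‖h‖ₑ ^ (n + 2) =
    (∫⁻ θ : sphere (0 : E (n + 1)) 1, ENNReal.ofReal |inner ℝ (θ : E (n + 1)) ν|
      ∂(volume : Measure (E (n + 1))).toSphere) * ENNReal.ofReal (Real.log (r₂ / r₁)) := by
  have hms : MeasurableSet {h : E (n + 1) | r₁ < ‖h‖ ∧ ‖h‖ < r₂} :=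
    (measurableSet_lt measurable_const measurable_norm).inter
      (measurableSet_lt measurable_norm measurable_const)
  rw [← lintegral_indicator hms]
  rw [← radial n h1 h2]
  refine lintegral_polar _ _ _ ?_ ?_ ?_
  · have : Continuous fun θ : sphere (0 : E (n + 1)) 1 =>
        ENNReal.ofReal |inner ℝ (θ : E (n + 1)) ν| :=
      ENNReal.continuous_ofReal.comp
        (continuous_abs.comp (continuous_subtype_val.inner continuous_const))
    exact this.measurable
  · refine Measurable.indicator ?_ measurableSet_Ioo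
    exact (ENNReal.measurable_ofReal).div (ENNReal.measurable_ofReal.pow_const _)
  · intro θ r hr
    have hθ : ‖(θ : E (n + 1))‖ = 1 := by simp
    have hn : ‖r • (θ : E (n + 1))‖ = r := by
      rw [norm_smul, hθ, mul_one, Real.norm_of_nonneg hr.le]
    by_cases hm : r ∈ Ioo r₁ r₂
    · rw [indicator_of_mem hm, indicator_of_mem (by
        change r₁ < ‖r • (θ : E (n + 1))‖ ∧ ‖r • (θ : E (n + 1))‖ < r₂
        rw [hn]; exact hm)]
      have he : ‖r • (θ : E (n + 1))‖ₑ = ENNReal.ofReal r := by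
        rw [← ofReal_norm, hn]
      rw [he, inner_smul_left, RCLike.conj_to_real, abs_mul, abs_of_pos hr,
        ENNReal.ofReal_mul hr.le, mul_comm (ENNReal.ofReal r), mul_div_assoc]
    · rw [indicator_of_notMem hm, indicator_of_notMem (by
        change ¬ (r₁ < ‖r • (θ : E (n + 1))‖ ∧ ‖r • (θ : E (n + 1))‖ < r₂)
        rw [hn]; exact hm), mul_zero]

theorem shell_polar' (n : ℕ) {r₁ r₂ : ℝ} (h1 : 0 < r₁) (h2 : r₁ < r₂) :
    ∫⁻ h in {h : E (n + 1) | r₁ < ‖h‖ ∧ ‖h‖ < r₂}, ‖h‖ₑ / ‖h‖ₑ ^ (n + 2) =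
    sig n * ENNReal.ofReal (Real.log (r₂ / r₁)) := by
  have hms : MeasurableSet {h : E (n + 1) | r₁ < ‖h‖ ∧ ‖h‖ < r₂} :=
    (measurableSet_lt measurable_const measurable_norm).inter
      (measurableSet_lt measurable_norm measurable_const)
  rw [← lintegral_indicator hms]
  have hs : sig n = ∫⁻ θ : sphere (0 : E (n + 1)) 1, 1
      ∂(volume : Measure (E (n + 1))).toSphere := by
    rw [lintegral_one]; rfl
  rw [← radial n h1 h2, hs]
  refine lintegral_polar _ _ _ measurable_const ?_ ?_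
  · refine Measurable.indicator ?_ measurableSet_Ioo
    exact (ENNReal.measurable_ofReal).div (ENNReal.measurable_ofReal.pow_const _)
  · intro θ r hr
    have hθ : ‖(θ : E (n + 1))‖ = 1 := by simp
    have hn : ‖r • (θ : E (n + 1))‖ = r := by
      rw [norm_smul, hθ, mul_one, Real.norm_of_nonneg hr.le]
    by_cases hm : r ∈ Ioo r₁ r₂
    · rw [indicator_of_mem hm, indicator_of_mem (by
        change r₁ < ‖r • (θ : E (n + 1))‖ ∧ ‖r • (θ : E (n + 1))‖ < r₂
        rw [hn]; exact hm)]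
      have he : ‖r • (θ : E (n + 1))‖ₑ = ENNReal.ofReal r := by
        rw [← ofReal_norm, hn]
      rw [he, one_mul]
    · rw [indicator_of_notMem hm, indicator_of_notMem (by
        change ¬ (r₁ < ‖r • (θ : E (n + 1))‖ ∧ ‖r • (θ : E (n + 1))‖ < r₂)
        rw [hn]; exact hm), mul_zero]

/-- rotation invariance of the shell integral -/
theorem shell_rot (n : ℕ) (ν ν' : E (n + 1)) (hν : ‖ν‖ = ‖ν'‖) (r₁ r₂ : ℝ) :
    ∫⁻ h in {h : E (n + 1) | r₁ < ‖h‖ ∧ ‖h‖ < r₂}, ENNReal.ofReal |inner ℝ h ν| / ‖h‖ₑ ^ (n + 2) =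
    ∫⁻ h in {h : E (n + 1) | r₁ < ‖h‖ ∧ ‖h‖ < r₂},
      ENNReal.ofReal |inner ℝ h ν'| / ‖h‖ₑ ^ (n + 2) := by
  have hms : MeasurableSet {h : E (n + 1) | r₁ < ‖h‖ ∧ ‖h‖ < r₂} :=
    (measurableSet_lt measurable_const measurable_norm).inter
      (measurableSet_lt measurable_norm measurable_const)
  let A : E (n + 1) ≃ₗᵢ[ℝ] E (n + 1) := (ℝ ∙ (ν' - ν))ᗮ.reflection
  have hA : A ν' = ν := Submodule.reflection_sub hν.symm
  rw [← lintegral_indicator hms, ← lintegral_indicator hms]
  have hmp : MeasurePreserving A volume volume := A.measurePreserving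
  rw [← hmp.lintegral_comp_emb A.toHomeomorph.measurableEmbedding]
  refine lintegral_congr fun h => ?_
  have e1 : inner ℝ (A h) ν = inner ℝ h ν' := by
    rw [← hA, A.inner_map_map]
  have e2 : ‖A h‖ = ‖h‖ := A.norm_map h
  have e3 : ‖A h‖ₑ = ‖h‖ₑ := by
    rw [← ofReal_norm, ← ofReal_norm, e2]
  by_cases hm : r₁ < ‖h‖ ∧ ‖h‖ < r₂
  · rw [indicator_of_mem (show h ∈ {h : E (n + 1) | r₁ < ‖h‖ ∧ ‖h‖ < r₂} from hm),
      indicator_of_mem (show A h ∈ {h : E (n + 1) | r₁ < ‖h‖ ∧ ‖h‖ < r₂} by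
        change r₁ < ‖A h‖ ∧ ‖A h‖ < r₂
        rw [e2]; exact hm), e1, e3]
  · rw [indicator_of_notMem (show h ∉ {h : E (n + 1) | r₁ < ‖h‖ ∧ ‖h‖ < r₂} from hm),
      indicator_of_notMem (show A h ∉ {h : E (n + 1) | r₁ < ‖h‖ ∧ ‖h‖ < r₂} by
        change ¬ (r₁ < ‖A h‖ ∧ ‖A h‖ < r₂)
        rw [e2]; exact hm)]

theorem sphere_int (n : ℕ) (ν : E (n + 1)) (hν : ‖ν‖ = 1) :
    ∫⁻ θ : sphere (0 : E (n + 1)) 1, ENNReal.ofReal |inner ℝ (θ : E (n + 1)) ν|
      ∂(volume : Measure (E (n + 1))).toSphere = kappa n := by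
  have hexp : (1 : ℝ) < Real.exp 1 := by
    have := Real.add_one_lt_exp (one_ne_zero (α := ℝ))
    linarith
  have h1 := shell_polar n ν one_pos hexp
  have h2 := shell_polar n (EuclideanSpace.single 0 1) one_pos hexp
  have h3 := shell_rot n ν (EuclideanSpace.single 0 1) (by rw [hν]; simp) 1 (Real.exp 1)
  rw [h1, h2] at h3
  simp only [div_one, Real.log_exp, ENNReal.ofReal_one, mul_one] at h3
  rw [h3]
  unfold kappa
  refine lintegral_congr fun θ => ?_
  rw [← ofReal_norm]
  congr 1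
  rw [Real.norm_eq_abs]
  congr 1
  rw [EuclideanSpace.inner_single_right]
  simp

theorem t_SHELL : S_SHELL := by
  intro n ν r₁ r₂ hν h1 h2
  have hsig : sig n ≠ ⊤ := measure_ne_top _ _
  refine ⟨?_, shell_polar' n h1 h2, ?_, hsig, ?_⟩
  · rw [shell_polar n ν h1 h2, sphere_int n ν hν]
  · have hle : kappa n ≤ sig n := by
      unfold kappa
      calc ∫⁻ z : sphere (0 : E (n + 1)) 1, ‖(z : E (n + 1)) 0‖ₑ
            ∂(volume : Measure (E (n + 1))).toSphere
          ≤ ∫⁻ z : sphere (0 : E (n + 1)) 1, 1 ∂(volume : Measure (E (n + 1))).toSphere := by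
            refine lintegral_mono fun z => ?_
            have hz : ‖(z : E (n + 1))‖ = 1 := by simp
            have h3 : ‖(z : E (n + 1)) 0‖ ≤ 1 := (PiLp.norm_apply_le _ 0).trans hz.le
            rw [← ofReal_norm]
            exact ENNReal.ofReal_le_one.2 h3
        _ = sig n := by rw [lintegral_one]; rfl
    exact ne_top_of_le_ne_top hsig hle
  · intro h0
    unfold kappa at h0
    have hc : Continuous fun z : sphere (0 : E (n + 1)) 1 => ‖(z : E (n + 1)) 0‖ₑ := by fun_prop
    rw [lintegral_eq_zero_iff hc.measurable] at h0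
    have h3 := (Continuous.ae_eq_iff_eq _ hc continuous_const).1 h0
    have h4 : ‖(EuclideanSpace.single 0 1 : E (n + 1))‖ = 1 := by simp
    have h5 := congrFun h3 ⟨EuclideanSpace.single 0 1, by rw [mem_sphere_zero_iff_norm]; exact h4⟩
    simp at h5

end Pool.Agent.Q223.JS
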